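import Pool.Agent.H.MP_81f94f_an.E

open Set Filter Topology MeasureTheory Pool.Agent.H.MP_81f94f_an

namespace Pool.Agent.Results.MP_81f94f_an.NotNorms

theorem result : ∃ ω : ℕ → ℝ, (∀ n, 0 < ω n) ∧ (∀ m n, ω (m + n) ≤ ω m * ω n) ∧
    Tendsto (fun n : ℕ => ω n ^ (1 / n : ℝ)) atTop (𝓝 0) ∧
    AntitoneOn (fun n : ℕ => ω n ^ (1 / n : ℝ)) (Ici 1) ∧
    (∀ f : ℝ → ℂ, IntegrableOn f (Icc 0 1) →
      ¬∀ n, ∫ t in (0 : ℝ)..1, ‖fpow f n t‖ = ω (n + 1)) ∧
    ∀ a : ComplexMeasure ℝ, a.restrict (Ioo 0 1) = a →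
      ¬∀ n, (mpow a n).variation univ = ENNReal.ofReal (ω (n + 1)) := by
  have hm : Monotone fun n => Nat.log 2 (Nat.log 2 n) := Nat.log_monotone.comp Nat.log_monotone
  have hr : ∀ n : ℕ, 1 ≤ n → ((1 / 2 : ℝ) ^ (n * Nat.log 2 (Nat.log 2 n))) ^ (1 / n : ℝ) =
      (1 / 2) ^ Nat.log 2 (Nat.log 2 n) := fun n hn => by
    rw [pow_mul', one_div (n : ℝ), Real.pow_rpow_inv_natCast (by positivity) (by omega)]
  have ht : Tendsto (Nat.log 2) atTop atTop := Nat.log_monotone.tendsto_atTop_atTop fun k =>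
    ⟨2 ^ k, (Nat.log_pow one_lt_two k).ge⟩
  refine ⟨fun n => (1 / 2) ^ (n * Nat.log 2 (Nat.log 2 n)), fun n => by positivity, fun m n => ?_,
    ((tendsto_pow_atTop_nhds_zero_of_lt_one (by norm_num) (by norm_num)).comp (ht.comp ht)).congr'
      ((eventually_ge_atTop 1).mono fun n hn => (hr n hn).symm), fun m h1 n h2 h => ?_,
    fun f hf h => ?_, fun a ha h => mpow_not ha h⟩
  · rw [← pow_add]
    refine pow_le_pow_of_le_one (by norm_num) (by norm_num) ?_
    rw [add_mul]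
    exact add_le_add (Nat.mul_le_mul_left _ (hm (m.le_add_right n)))
      (Nat.mul_le_mul_left _ (hm (n.le_add_left m)))
  · simp only [hr m h1, hr n h2]
    exact pow_le_pow_of_le_one (by norm_num) (by norm_num) (hm h)
  · have hf := hf.mono_set Ioo_subset_Icc_self
    refine core (ρ := fun _ => volume.restrict (Ioo 0 1)) (fpow_int hf)
      (fun _ => ae_restrict_mem measurableSet_Ioo) (fpow_J hf) fun n => ?_
    rw [← integral_Ioc_eq_integral_Ioo, ← intervalIntegral.integral_of_le zero_le_one, h]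

end Pool.Agent.Results.MP_81f94f_an.NotNorms
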